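import Pool.Agent.Lib_helper89.Mac.P2Block
import Pool.Agent.Lib_helper28.CMPP.Defs

set_option autoImplicit false
set_option linter.unusedVariables false

open Finset

namespace Pool.Agent.CMPP

open CMPP_M

lemma Eul_eq_E (q : ℝ) : Eul q = E q 1 1 := by
  unfold Eul E
  exact tprod_congr fun j => by rw [one_mul, add_comm]

lemma zp (q : ℝ) (a : ℤ) (b : ℕ) (h : a = b) : (q : ℂ) ^ a = (q : ℂ) ^ b := by
  rw [h, zpow_natCast]

/-- (P1) -/
theorem P1 (k : ℕ) {q s : ℝ} (hq0 : 0 < q) (hq1 : q < 1) (hs0 : 0 < s) (hs1 : s < 1)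
    (hsq : s ^ 2 = q ^ (2 * k + 1)) :
    ∏ t : Fin k, (th s ((q : ℂ) ^ (2 * ((0 : ℤ) + ((t : ℕ) + 1)))) *
        ∏ u ∈ Iio t, (th s ((q : ℂ) ^ (((0 : ℤ) + ((t : ℕ) + 1)) - (0 + ((u : ℕ) + 1)))) *
          th s ((q : ℂ) ^ (((0 : ℤ) + ((t : ℕ) + 1)) + (0 + ((u : ℕ) + 1))))))
    = ((Eul q / Qi s : ℝ) : ℂ) ^ k := by
  have h := CMPP_M.P1 k hq0 hq1 hs0 hsq
  rw [Eul_eq_E]
  push_cast at h ⊢
  rw [← h, prod_mul_distrib]
  refine congrArg₂ (· * ·) ?_ ?_
  · refine prod_congr rfl fun t _ => congrArg (th s) (zp _ _ _ (by push_cast; ring))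
  · refine prod_congr rfl fun t _ => prod_congr rfl fun u hu => ?_
    have hut : (u : ℕ) < t := by
      have h0 : u < t := mem_Iio.mp hu
      exact h0
    exact congrArg₂ (· * ·)
      (congrArg (th s) (zp _ _ _ (by rw [Nat.cast_sub (by omega)]; push_cast; ring)))
      (congrArg (th s) (zp _ _ _ (by push_cast; ring)))

lemma KK_mono (kf : ℕ → ℕ) : Monotone (KK kf) := by
  refine monotone_nat_of_le_succ fun i => ?_
  simp only [KK, sum_range_succ _ (i + 1)]; omega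

lemma isCol_cf (n : ℕ) (kf : ℕ → ℕ) : IsCol n kf (fun t => cf n kf (t : ℕ)) := by
  intro t j hj
  have ht : (t : ℕ) < KK kf n := t.2
  change cf n kf t ≤ j ↔ (t : ℕ) < KK kf j
  constructor
  · intro h
    by_contra hlt
    push Not at hlt
    have hjn : j < n := by
      rcases Nat.lt_or_ge j n with h1 | h1
      · exact h1
      · have : KK kf n ≤ KK kf j := KK_mono kf h1
        omega
    have hsub : range (j + 1) ⊆ (range n).filter (fun i => KK kf i ≤ (t : ℕ)) := by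
      intro i hi
      rw [mem_range] at hi
      rw [mem_filter, mem_range]
      exact ⟨by omega, le_trans (KK_mono kf (by omega)) hlt⟩
    have := card_le_card hsub
    rw [card_range] at this
    unfold cf at h
    omega
  · intro h
    have hsub : (range n).filter (fun i => KK kf i ≤ (t : ℕ)) ⊆ range j := by
      intro i hi
      rw [mem_filter, mem_range] at hi
      rw [mem_range]
      by_contra hge
      push Not at hge
      have : KK kf j ≤ KK kf i := KK_mono kf hge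
      omega
    have := card_le_card hsub
    rw [card_range] at this
    unfold cf
    exact this

/-- (P2) -/
theorem P2 (n : ℕ) (hn : 1 ≤ n) (kf : ℕ → ℕ) {q s : ℝ} (hq0 : 0 < q) (hq1 : q < 1)
    (hs : s = q ^ (KK kf n + n + 1)) :
    (∏ t : Fin (KK kf n), (th s ((q : ℂ) ^ (2 * ((cf n kf t : ℤ) + ((t : ℕ) + 1)))) *
        ∏ u ∈ Iio t, (th s ((q : ℂ) ^ (((cf n kf t : ℤ) + ((t : ℕ) + 1)) - ((cf n kf u : ℤ) + ((u : ℕ) + 1)))) *
          th s ((q : ℂ) ^ (((cf n kf t : ℤ) + ((t : ℕ) + 1)) + ((cf n kf u : ℤ) + ((u : ℕ) + 1)))))))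
      * (Qi s : ℂ) ^ (KK kf n) = ((RHS n kf q * (Eul q) ^ (KK kf n) : ℝ) : ℂ) := by
  have hc := isCol_cf n kf
  have hs2 : s ^ 2 = q ^ (2 * ((∑ t ∈ range (n + 1), kf t) + n + 1)) := by
    rw [hs, ← pow_mul, mul_comm]; rfl
  have hEp := E_pos hq0 hq1 (a := 1) (N := 1) le_rfl le_rfl
  have hEc : ((E q 1 1 : ℝ) : ℂ) ≠ 0 := by exact_mod_cast hEp.ne'
  -- the bare product is real
  have : NeZero (2 * ((∑ t ∈ range (n + 1), kf t) + n + 1)) := ⟨by omega⟩
  have hreal := thprod_eq_Phi (N := 2 * ((∑ t ∈ range (n + 1), kf t) + n + 1)) hq0 hq1 hs2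
    (fun t : Fin (∑ t ∈ range (n + 1), kf t) => cf n kf t + (t : ℕ) + 1) hc.strict
    (fun t => by omega) (fun t => by
      have h1 : cf n kf t ≤ n := hc.le t
      have h2 := t.2
      omega)
  set Φ := Phi (FE q (2 * ((∑ t ∈ range (n + 1), kf t) + n + 1)))
    (univ.image (fun t : Fin (∑ t ∈ range (n + 1), kf t) => cf n kf t + (t : ℕ) + 1)) with hΦ
  set Z : ℝ := Qi s ^ (∑ t ∈ range (n + 1), kf t) * Φ / (E q 1 1) ^ (∑ t ∈ range (n + 1), kf t) with hZdef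
  have hZ := CMPP_M.P2 (n := n) (k := kf) (c := fun t => cf n kf (t : ℕ)) hq0 hq1 hs2 hc Z (by
    rw [hreal, hZdef]
    push_cast
    field_simp)
  have hprod : (∏ t : Fin (KK kf n), (th s ((q : ℂ) ^ (2 * ((cf n kf t : ℤ) + ((t : ℕ) + 1)))) *
        ∏ u ∈ Iio t, (th s ((q : ℂ) ^ (((cf n kf t : ℤ) + ((t : ℕ) + 1)) - ((cf n kf u : ℤ) + ((u : ℕ) + 1)))) *
          th s ((q : ℂ) ^ (((cf n kf t : ℤ) + ((t : ℕ) + 1)) + ((cf n kf u : ℤ) + ((u : ℕ) + 1)))))))
      = ((Φ : ℝ) : ℂ) := by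
    rw [← hreal]
    change (∏ t : Fin (∑ t ∈ range (n + 1), kf t), (th s ((q : ℂ) ^ (2 * ((cf n kf t : ℤ) + ((t : ℕ) + 1)))) *
        ∏ u ∈ Iio t, (th s ((q : ℂ) ^ (((cf n kf t : ℤ) + ((t : ℕ) + 1)) - ((cf n kf u : ℤ) + ((u : ℕ) + 1)))) *
          th s ((q : ℂ) ^ (((cf n kf t : ℤ) + ((t : ℕ) + 1)) + ((cf n kf u : ℤ) + ((u : ℕ) + 1))))))) = _
    rw [prod_mul_distrib]
    refine congrArg₂ (· * ·) ?_ ?_
    · refine prod_congr rfl fun t _ => congrArg (th s) (zp _ _ _ (by push_cast; ring))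
    · refine prod_congr rfl fun t _ => prod_congr rfl fun u hu => ?_
      have hut : cf n kf u + (u : ℕ) + 1 < cf n kf t + (t : ℕ) + 1 := hc.strict (mem_Iio.mp hu)
      exact congrArg₂ (· * ·)
        (congrArg (th s) (zp _ _ _ (by rw [Nat.cast_sub hut.le]; push_cast; ring)))
        (congrArg (th s) (zp _ _ _ (by push_cast; ring)))
  have hR : RHS n kf q = RHSf n kf q := rfl
  rw [hprod, hR, ← hZ, hZdef, Eul_eq_E]
  have hKK : KK kf n = ∑ t ∈ range (n + 1), kf t := rfl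
  rw [hKK]
  push_cast
  field_simp

end Pool.Agent.CMPP
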