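import Pool.Agent.Lib_helper89.Mac.TBlock
import Pool.Agent.Lib_helper89.CMPP.PW
import Pool.Agent.Lib_helper28.CMPP.Defs

set_option autoImplicit false
set_option linter.unusedVariables false

open Finset

namespace Pool.Agent.CMPP

open CMPP_M

/-- embedding `n ↦ n + a` -/
def emb (a : ℤ) : ℕ ↪ ℤ := ⟨fun n => (n : ℤ) + a, fun x y h => by
  have h' : (x : ℤ) + a = (y : ℤ) + a := h
  omega⟩

lemma emb_apply (a : ℤ) (n : ℕ) : emb a n = (n : ℤ) + a := rfl

/-- from pairs of sets of naturals to arrays -/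
def toArr (c : ℤ) (p : Finset ℕ × Finset ℕ) : Arr := (p.1.map (emb (c + 1)), p.2.map (emb (-c)))

lemma toArr_VA (c : ℤ) (p : Finset ℕ × Finset ℕ) : VA c (toArr c p) := by
  constructor
  · intro x hx
    simp only [toArr, mem_map, emb_apply] at hx
    obtain ⟨n, _, rfl⟩ := hx
    omega
  · intro y hy
    simp only [toArr, mem_map, emb_apply] at hy
    obtain ⟨n, _, rfl⟩ := hy
    omega

lemma toArr_ch (c : ℤ) (p : Finset ℕ × Finset ℕ) : ch (toArr c p) = (#p.1 : ℤ) - #p.2 := by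
  simp [toArr, ch]

lemma toArr_injective (c : ℤ) : Function.Injective (toArr c) := by
  rintro ⟨a, b⟩ ⟨a', b'⟩ h
  simp only [toArr, Prod.mk.injEq, map_inj] at h
  rw [h.1, h.2]

lemma toArr_surj (c : ℤ) {P : Arr} (hP : VA c P) : ∃ p, toArr c p = P := by
  refine ⟨(P.1.image (fun x => (x - (c + 1)).toNat), P.2.image (fun y => (y - (-c)).toNat)), ?_⟩
  refine Prod.ext ?_ ?_
  · ext x
    simp only [toArr, mem_map, mem_image, emb_apply]
    constructor
    · rintro ⟨n, ⟨y, hy, rfl⟩, rfl⟩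
      have := hP.1 y hy
      have e : (((y - (c + 1)).toNat : ℕ) : ℤ) + (c + 1) = y := by omega
      rw [e]; exact hy
    · intro hx
      have := hP.1 x hx
      exact ⟨(x - (c + 1)).toNat, ⟨x, hx, rfl⟩, by omega⟩
  · ext x
    simp only [toArr, mem_map, mem_image, emb_apply]
    constructor
    · rintro ⟨n, ⟨y, hy, rfl⟩, rfl⟩
      have := hP.2 y hy
      have e : (((y - (-c)).toNat : ℕ) : ℤ) + (-c) = y := by omega
      rw [e]; exact hy
    · intro hx
      have := hP.2 x hx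
      exact ⟨(x - (-c)).toNat, ⟨x, hx, rfl⟩, by omega⟩

lemma toArr_wa (c : ℤ) {q : ℝ} (hq0 : 0 < q) (p : Finset ℕ × Finset ℕ) :
    q ^ (wa (toArr c p)) = q ^ (c * ((#p.1 : ℤ) - #p.2)) * wt0 q p := by
  have h1 : wa (toArr c p) = c * ((#p.1 : ℤ) - #p.2) +
      ((∑ x ∈ p.1, ((x + 1 : ℕ) : ℤ)) + ∑ y ∈ p.2, ((y : ℕ) : ℤ)) := by
    simp only [wa, toArr, sum_map, emb_apply]
    have e1 : ∑ x ∈ p.1, ((x : ℤ) + (c + 1)) = ∑ x ∈ p.1, ((x + 1 : ℕ) : ℤ) + #p.1 * c := by
      rw [← nsmul_eq_mul, ← sum_const, ← sum_add_distrib]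
      exact sum_congr rfl fun x _ => by push_cast; ring
    have e2 : ∑ y ∈ p.2, ((y : ℤ) + -c) = ∑ y ∈ p.2, ((y : ℕ) : ℤ) - #p.2 * c := by
      rw [← nsmul_eq_mul, ← sum_const, ← sum_sub_distrib]
      exact sum_congr rfl fun x _ => by ring
    rw [e1, e2]; ring
  rw [h1, zpow_add₀ hq0.ne']
  congr 1
  rw [wt0, zpow_add₀ hq0.ne']
  congr 1
  · rw [← Nat.cast_sum, zpow_natCast, prod_pow_eq_pow_sum]
  · rw [← Nat.cast_sum, zpow_natCast, prod_pow_eq_pow_sum]

/-- (T) -/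
theorem T_hasSum {q : ℝ} (hq0 : 0 < q) (hq1 : q < 1) (c d : ℤ) :
    HasSum (fun P : {P : Arr // VA c P ∧ ch P = d} => q ^ (wa P.1))
      (q ^ (d * (d + 2 * c + 1) / 2) / Eul q) := by
  let e : {p : Finset ℕ × Finset ℕ // (#p.1 : ℤ) - #p.2 = d} ≃ {P : Arr // VA c P ∧ ch P = d} :=
    Equiv.ofBijective (fun p => ⟨toArr c p.1, toArr_VA c _, by rw [toArr_ch]; exact p.2⟩) (by
      constructor
      · intro p p' h
        have h' : toArr c p.1 = toArr c p'.1 := congrArg Subtype.val h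
        exact Subtype.ext (toArr_injective c h')
      · rintro ⟨P, hP, hd⟩
        obtain ⟨p, hp⟩ := toArr_surj c hP
        refine ⟨⟨p, ?_⟩, Subtype.ext hp⟩
        rw [← toArr_ch c, hp, hd])
  rw [← e.hasSum_iff]
  have h := (T0 hq0 hq1 d).mul_left (q ^ (c * d))
  have e1 : q ^ (c * d) * (q ^ (d * (d + 1) / 2) / E q 1 1) = q ^ (d * (d + 2 * c + 1) / 2) / Eul q := by
    rw [Eul_eq_E, mul_div_assoc', ← zpow_add₀ hq0.ne']
    congr 2
    have h2 : (2 : ℤ) ∣ d * (d + 1) := (Int.even_mul_succ_self d).two_dvd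
    have h3 : d * (d + 2 * c + 1) = d * (d + 1) + 2 * (c * d) := by ring
    rw [h3]
    omega
  rw [e1] at h
  refine h.congr_fun ?_
  intro p
  have h4 : (e p).1 = toArr c p.1 := rfl
  simp only [Function.comp_apply, h4]
  rw [toArr_wa c hq0, p.2]

lemma hasSum_pi_nonneg {α : Type} (n : ℕ) : ∀ (f : Fin n → α → ℝ) (S : Fin n → ℝ),
    (∀ j a, 0 ≤ f j a) → (∀ j, HasSum (f j) (S j)) →
    HasSum (fun k : Fin n → α => ∏ j, f j (k j)) (∏ j, S j) := by
  induction n with
  | zero =>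
    intro f S _ _
    simp only [Finset.univ_eq_empty, Finset.prod_empty]
    simp
  | succ n ih =>
    intro f S hf hS
    have h1 := ih (fun j => f j.succ) (fun j => S j.succ) (fun j a => hf _ _) (fun j => hS _)
    have h2 : Summable (fun x : α × (Fin n → α) => f 0 x.1 * ∏ j, f (Fin.succ j) (x.2 j)) :=
      (hS 0).summable.mul_of_nonneg h1.summable (fun a => hf 0 a)
        (fun k => prod_nonneg fun j _ => hf _ _)
    have h3 := (hS 0).mul h1 h2
    rw [← (Fin.consEquiv (fun _ : Fin (n + 1) => α)).hasSum_iff, Fin.prod_univ_succ S]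
    refine h3.congr_fun fun x => ?_
    simp only [Function.comp_apply]
    rw [Fin.prod_univ_succ]
    simp [Fin.consEquiv]

/-- indicator form of the summand of (T) -/
noncomputable def fT (q : ℝ) (c d : ℤ) : Arr → ℝ :=
  Set.indicator {P | VA c P ∧ ch P = d} (fun P => q ^ (wa P))

lemma fT_nonneg {q : ℝ} (hq0 : 0 < q) (c d : ℤ) (P : Arr) : 0 ≤ fT q c d P :=
  Set.indicator_nonneg (fun _ _ => by positivity) _

lemma hasSum_fT {q : ℝ} (hq0 : 0 < q) (hq1 : q < 1) (c d : ℤ) :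
    HasSum (fT q c d) (q ^ (d * (d + 2 * c + 1) / 2) / Eul q) :=
  (hasSum_subtype_iff_indicator (s := {P | VA c P ∧ ch P = d}) (f := fun P => q ^ (wa P))).mp
    (T_hasSum hq0 hq1 c d)

variable {k : ℕ}

lemma prod_fT {q : ℝ} (hq0 : 0 < q) (c : Fin k → ℤ) (D : Fin k → ℤ) (o : Obj k) :
    ∏ t, fT q (c t) (D t + ((t : ℕ) + 1)) (o t)
      = Set.indicator {o : Obj k | Valid c o ∧ EE o = D} (fun o => q ^ (wt o)) o := by
  by_cases h : Valid c o ∧ EE o = D
  · rw [Set.indicator_of_mem (by exact h), wt]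
    have h1 : ∀ t, fT q (c t) (D t + ((t : ℕ) + 1)) (o t) = q ^ (wa (o t)) := by
      intro t
      rw [fT, Set.indicator_of_mem]
      refine ⟨h.1 t, ?_⟩
      rw [← h.2]; simp [EE]
    rw [prod_congr rfl fun t _ => h1 t]
    have h2 : ∀ S : Finset (Fin k), ∏ t ∈ S, q ^ (wa (o t)) = q ^ (∑ t ∈ S, wa (o t)) := by
      intro S
      classical
      induction S using Finset.induction_on with
      | empty => simp
      | insert b S hb ih => rw [prod_insert hb, sum_insert hb, ih, zpow_add₀ hq0.ne']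
    exact h2 _
  · rw [Set.indicator_of_notMem (by exact h)]
    have h3 : ∃ t, ¬ (VA (c t) (o t) ∧ ch (o t) = D t + ((t : ℕ) + 1)) := by
      by_contra hall
      push Not at hall
      apply h
      refine ⟨fun t => (hall t).1, ?_⟩
      funext t
      have := (hall t).2
      simp only [EE, this]; ring
    obtain ⟨t, ht⟩ := h3
    refine prod_eq_zero (mem_univ t) ?_
    rw [fT, Set.indicator_of_notMem]
    exact ht

lemma hasSum_fibre {q : ℝ} (hq0 : 0 < q) (hq1 : q < 1) (c : Fin k → ℤ) (D : Fin k → ℤ) :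
    HasSum (fun o : Obj k => Set.indicator {o : Obj k | Valid c o ∧ EE o = D} (fun o => q ^ (wt o)) o)
      (∏ t, (q ^ ((D t + ((t : ℕ) + 1)) * ((D t + ((t : ℕ) + 1)) + 2 * c t + 1) / 2) / Eul q)) := by
  have h := hasSum_pi_nonneg k (fun t => fT q (c t) (D t + ((t : ℕ) + 1))) _
    (fun t P => fT_nonneg hq0 _ _ _) (fun t => hasSum_fT hq0 hq1 (c t) (D t + ((t : ℕ) + 1)))
  refine h.congr_fun ?_
  intro o
  exact (prod_fT hq0 c D o).symm

lemma exp_alg (D τ c : ℤ) :
    (D + τ) * ((D + τ) + 2 * c + 1) / 2 - D * (D + 1) / 2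
      = τ * (τ + 2 * c + 1) / 2 + (c + τ) * D := by
  have h1 : (2 : ℤ) ∣ D * (D + 1) := (Int.even_mul_succ_self D).two_dvd
  have h2 : (2 : ℤ) ∣ τ * (τ + 1) := (Int.even_mul_succ_self τ).two_dvd
  have e1 : τ * (τ + 2 * c + 1) = τ * (τ + 1) + 2 * (τ * c) := by ring
  have e2 : (D + τ) * ((D + τ) + 2 * c + 1)
      = D * (D + 1) + τ * (τ + 1) + 2 * (D * τ + D * c + τ * c) := by ring
  have e3 : (c + τ) * D = D * c + D * τ := by ring
  rw [e1, e2, e3]
  omega

/-- the value of a fibre, real form without `g` -/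
lemma fibre_value {q : ℝ} (hq0 : 0 < q) (c : Fin k → ℤ) (D : Fin k → ℤ) :
    q ^ (-(∑ t, D t * (D t + 1) / 2)) *
      (∏ t, (q ^ ((D t + ((t : ℕ) + 1)) * ((D t + ((t : ℕ) + 1)) + 2 * c t + 1) / 2) / Eul q))
    = (∏ t : Fin k, q ^ (((t : ℕ) + 1 : ℤ) * (((t : ℕ) + 1) + 2 * c t + 1) / 2)) / (Eul q) ^ k *
      ∏ t : Fin k, (q ^ (c t + ((t : ℕ) + 1))) ^ D t := by
  have h2 : ∀ (f : Fin k → ℤ), q ^ (∑ t, f t) = ∏ t, q ^ (f t) := by
    intro f
    have : ∀ S : Finset (Fin k), ∏ t ∈ S, q ^ (f t) = q ^ (∑ t ∈ S, f t) := by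
      intro S
      classical
      induction S using Finset.induction_on with
      | empty => simp
      | insert b S hb ih => rw [prod_insert hb, sum_insert hb, ih, zpow_add₀ hq0.ne']
    exact (this _).symm
  rw [← Finset.sum_neg_distrib, h2, prod_div_distrib, prod_const, card_univ, Fintype.card_fin,
    mul_div_assoc', ← prod_mul_distrib, div_mul_eq_mul_div, ← prod_mul_distrib]
  congr 1
  refine prod_congr rfl fun t _ => ?_
  rw [← zpow_add₀ hq0.ne', ← zpow_mul, ← zpow_add₀ hq0.ne']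
  congr 1
  have := exp_alg (D t) ((t : ℕ) + 1) (c t)
  linarith

/-- sum over all configurations from fibrewise sums -/
lemma sum_fibres {q : ℝ} (hq0 : 0 < q) (hq1 : q < 1) (c : Fin k → ℤ) (G : (Fin k → ℤ) → ℂ) (a : ℂ)
    (hn : Summable (fun D : Fin k → ℤ => ‖G D‖ *
      (∏ t, (q ^ ((D t + ((t : ℕ) + 1)) * ((D t + ((t : ℕ) + 1)) + 2 * c t + 1) / 2) / Eul q))))
    (hs : HasSum (fun D : Fin k → ℤ => G D *
      ((∏ t, (q ^ ((D t + ((t : ℕ) + 1)) * ((D t + ((t : ℕ) + 1)) + 2 * c t + 1) / 2) / Eul q) : ℝ) : ℂ)) a) :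
    HasSum (fun o : {o : Obj k // Valid c o} => G (EE o.1) * (q : ℂ) ^ (wt o.1)) a := by
  set f : Obj k → ℂ := Set.indicator {o : Obj k | Valid c o} (fun o => G (EE o) * (q : ℂ) ^ (wt o)) with hf
  suffices hmain : HasSum f a from
    (hasSum_subtype_iff_indicator (s := {o : Obj k | Valid c o})
      (f := fun o => G (EE o) * (q : ℂ) ^ (wt o))).mpr hmain
  -- the fibre terms
  have hterm : ∀ (D : Fin k → ℤ) (o : Obj k), EE o = D →
      f o = G D * ((Set.indicator {o : Obj k | Valid c o ∧ EE o = D} (fun o => q ^ (wt o)) o : ℝ) : ℂ) := by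
    intro D o ho
    by_cases hv : Valid c o
    · rw [hf, Set.indicator_of_mem (by exact hv), Set.indicator_of_mem (by exact ⟨hv, ho⟩), ho]
      push_cast; rfl
    · rw [hf, Set.indicator_of_notMem (by exact hv), Set.indicator_of_notMem (by
        intro h'; exact hv h'.1)]
      simp
  have hfib : ∀ D : Fin k → ℤ, HasSum (fun o : {o : Obj k // EE o = D} => f o.1)
      (G D * ((∏ t, (q ^ ((D t + ((t : ℕ) + 1)) * ((D t + ((t : ℕ) + 1)) + 2 * c t + 1) / 2) / Eul q) : ℝ) : ℂ)) := by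
    intro D
    have h1 := (hasSum_fibre hq0 hq1 c D).map Complex.ofRealHom Complex.continuous_ofReal
    have h2 := h1.mul_left (G D)
    refine (hasSum_subtype_iff_indicator (s := {o : Obj k | EE o = D}) (f := f)).mpr ?_
    refine h2.congr_fun ?_
    intro o
    by_cases ho : EE o = D
    · rw [Set.indicator_of_mem (by exact ho), hterm D o ho]
      rfl
    · rw [Set.indicator_of_notMem (by exact ho)]
      simp only [Function.comp_apply, Complex.ofRealHom_eq_coe]
      rw [Set.indicator_of_notMem (by intro h'; exact ho h'.2)]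
      simp
  have hfibn : ∀ D : Fin k → ℤ, HasSum (fun o : {o : Obj k // EE o = D} => ‖f o.1‖)
      (‖G D‖ * (∏ t, (q ^ ((D t + ((t : ℕ) + 1)) * ((D t + ((t : ℕ) + 1)) + 2 * c t + 1) / 2) / Eul q))) := by
    intro D
    have h2 := (hasSum_fibre hq0 hq1 c D).mul_left ‖G D‖
    refine (hasSum_subtype_iff_indicator (s := {o : Obj k | EE o = D}) (f := fun o => ‖f o‖)).mpr ?_
    refine h2.congr_fun ?_
    intro o
    by_cases ho : EE o = D
    · rw [Set.indicator_of_mem (by exact ho), hterm D o ho, norm_mul, Complex.norm_real,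
        Real.norm_of_nonneg]
      exact Set.indicator_nonneg (fun _ _ => by positivity) _
    · rw [Set.indicator_of_notMem (by exact ho), Set.indicator_of_notMem (by intro h'; exact ho h'.2)]
      simp
  set e := Equiv.sigmaFiberEquiv (EE (k := k)) with he
  have hsumn : Summable (fun x : (Σ D : Fin k → ℤ, {o : Obj k // EE o = D}) => ‖f x.2.1‖) := by
    rw [summable_sigma_of_nonneg (fun x => norm_nonneg _)]
    refine ⟨fun D => (hfibn D).summable, ?_⟩
    refine hn.congr fun D => ?_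
    exact (hfibn D).tsum_eq.symm
  have hsig : HasSum (fun x : (Σ D : Fin k → ℤ, {o : Obj k // EE o = D}) => f x.2.1) a :=
    HasSum.sigma_of_hasSum hs hfib hsumn.of_norm
  have := (e.hasSum_iff (f := f) (a := a)).mp hsig
  exact this

/-- (S) -/
theorem sum_all (c : Fin k → ℤ) {q s : ℝ} (hq0 : 0 < q) (hq1 : q < 1)
    (hs0 : 0 < s) (hs1 : s < 1) {g : (Fin k → ℤ) → ℂ}
    (h : IsL (fun z : Fin k → ℂ => Ft s z) g) :
    HasSum (fun o : {o : Obj k // Valid c o} =>
        g (EE o.1) * (q : ℂ) ^ (wt o.1 - ∑ t, EE o.1 t * (EE o.1 t + 1) / 2))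
      ((∏ t : Fin k, (q : ℂ) ^ (((t : ℕ) + 1 : ℤ) * (((t : ℕ) + 1) + 2 * c t + 1) / 2)) /
        (Eul q : ℂ) ^ k * Ft s (fun t => (q : ℂ) ^ (c t + ((t : ℕ) + 1)))) := by
  have hqc : (q : ℂ) ≠ 0 := by exact_mod_cast hq0.ne'
  set z : Fin k → ℂ := fun t => (q : ℂ) ^ (c t + ((t : ℕ) + 1)) with hz
  have hnz : NZ z := fun t => zpow_ne_zero _ hqc
  obtain ⟨h1, h2⟩ := h z hnz
  set C : ℝ := (∏ t : Fin k, q ^ (((t : ℕ) + 1 : ℤ) * (((t : ℕ) + 1) + 2 * c t + 1) / 2)) /
    (Eul q) ^ k with hC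
  have hCc : ((C : ℝ) : ℂ) = (∏ t : Fin k, (q : ℂ) ^ (((t : ℕ) + 1 : ℤ) * (((t : ℕ) + 1) + 2 * c t + 1) / 2)) /
        (Eul q : ℂ) ^ k := by
    rw [hC]; push_cast; rfl
  have hmon : ∀ D : Fin k → ℤ, mon z D = ((∏ t : Fin k, (q ^ (c t + ((t : ℕ) + 1))) ^ D t : ℝ) : ℂ) := by
    intro D; simp only [mon, hz]; push_cast; rfl
  set G : (Fin k → ℤ) → ℂ := fun D => g D * ((q ^ (-(∑ t, D t * (D t + 1) / 2)) : ℝ) : ℂ) with hG
  have hEul : 0 < Eul q := by rw [Eul_eq_E]; exact E_pos hq0 hq1 le_rfl le_rfl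
  have key := sum_fibres hq0 hq1 c G ((C : ℂ) * Ft s z) ?_ ?_
  · rw [← hCc]
    refine key.congr_fun ?_
    intro o
    simp only [hG]
    rw [zpow_sub₀ hqc]
    push_cast
    rw [zpow_neg]
    field_simp
  · have h3 := h1.mul_left ‖(C : ℂ)‖
    refine h3.congr fun D => ?_
    have hCpos : 0 ≤ C := by
      rw [hC]
      exact div_nonneg (prod_nonneg fun _ _ => by positivity) (by positivity)
    rw [norm_mul, hmon, Complex.norm_real, Complex.norm_real, Real.norm_of_nonneg hCpos,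
      Real.norm_of_nonneg (prod_nonneg fun _ _ => by positivity)]
    simp only [hG]
    rw [norm_mul, Complex.norm_real, Real.norm_of_nonneg (by positivity), mul_assoc ‖g D‖,
      fibre_value hq0 c D]
    ring
  · have h3 := h2.mul_left (C : ℂ)
    refine h3.congr_fun ?_
    intro D
    simp only [hG]
    have fv := fibre_value hq0 c D
    rw [← hC] at fv
    rw [mul_assoc (g D), ← Complex.ofReal_mul, fv, hmon, Complex.ofReal_mul]
    ring

end Pool.Agent.CMPP
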